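import Pool.Agent.Helper32.OIP.Goals

/-!
# OIP, packet S0: the noise measures
-/

set_option autoImplicit false

namespace Pool.Agent.Helper7.OIP

open MeasureTheory Pool.Agent.Helper32.OIP Pool.Agent.Helper58.Orb
open scoped ENNReal

theorem ber_prob (q : ℝ) (h0 : 0 ≤ q) (h1 : q ≤ 1) : IsProbabilityMeasure (ber q) := by
  constructor
  unfold ber
  rw [Measure.add_apply, Measure.smul_apply, Measure.smul_apply, measure_univ, measure_univ,
    smul_eq_mul, smul_eq_mul, mul_one, mul_one, ← ENNReal.ofReal_add h0 (by linarith)]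
  simp

theorem lint_nu (q : ℝ) (h0 : 0 ≤ q) (h1 : q ≤ 1) (f : E0 → ℝ≥0∞) (hf : Measurable f) :
    ∫⁻ e, f e ∂(nu q) =
      ENNReal.ofReal q * (∫⁻ x : unitInterval, ∫⁻ u : unitInterval, f (x, (false, u))) +
      ENNReal.ofReal (1 - q) * (∫⁻ x : unitInterval, ∫⁻ u : unitInterval, f (x, (true, u))) := by
  have hb := ber_prob q h0 h1
  have hn : IsProbabilityMeasure (nz q) := by unfold nz; infer_instance
  have hA : ∀ b : Bool, Measurable fun x : unitInterval => ∫⁻ u : unitInterval, f (x, (b, u)) := by
    intro b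
    apply Measurable.lintegral_prod_right'
      (f := fun p : unitInterval × unitInterval => f (p.1, (b, p.2)))
    exact hf.comp (by fun_prop)
  unfold nu
  rw [lintegral_prod _ hf.aemeasurable]
  have h : ∀ x : unitInterval, ∫⁻ p, f (x, p) ∂(nz q) =
      ENNReal.ofReal q * (∫⁻ u : unitInterval, f (x, (false, u))) +
      ENNReal.ofReal (1 - q) * (∫⁻ u : unitInterval, f (x, (true, u))) := by
    intro x
    unfold nz
    have hx : Measurable fun p : Nz => f (x, p) := hf.comp (by fun_prop)
    rw [lintegral_prod _ hx.aemeasurable]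
    unfold ber
    rw [lintegral_add_measure, lintegral_smul_measure, lintegral_smul_measure, lintegral_dirac,
      lintegral_dirac, smul_eq_mul, smul_eq_mul]
  simp_rw [h]
  rw [lintegral_add_left ((hA false).const_mul _), lintegral_const_mul _ (hA false),
    lintegral_const_mul _ (hA true)]

theorem meas_jn : Measurable jn := by
  unfold jn
  apply Measurable.ite
  · have : {a : E0 | a.2.1 = true} = (fun a : E0 => a.2.1) ⁻¹' {true} := rfl
    rw [this]
    exact (by fun_prop : Measurable fun a : E0 => a.2.1) (measurableSet_singleton _)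
  · fun_prop
  · fun_prop

theorem jn_mp (q : ℝ) (h0 : 0 ≤ q) (h1 : q ≤ 1) : MeasurePreserving jn (nu q) (nu q) := by
  refine ⟨meas_jn, ?_⟩
  apply Measure.ext_of_lintegral
  intro f hf
  have hj : Measurable fun e => f (jn e) := hf.comp meas_jn
  rw [lintegral_map hf meas_jn, lint_nu q h0 h1 f hf, lint_nu q h0 h1 _ hj]
  congr 2
  have h : ∀ x u : unitInterval, f (jn (x, (true, u))) = f (u, (true, x)) := fun x u => rfl
  simp_rw [h]
  rw [lintegral_lintegral_swap]
  exact (hf.comp (by fun_prop)).aemeasurable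

theorem s0 : GoalS0 := by
  intro hMA
  refine ⟨?_, ?_, ?_⟩
  · intro q h0 h1
    have hb := ber_prob q h0 h1
    have hn : IsProbabilityMeasure (nz q) := by unfold nz; infer_instance
    have hnu : IsProbabilityMeasure (nu q) := by unfold nu; infer_instance
    refine ⟨hnu, hn, jn_mp q h0 h1, ?_⟩
    intro C
    exact hMA.1 C E0 E0 (nu q) (nu q) (fun _ => jn) (fun _ => jn_mp q h0 h1)
  · rintro ⟨x, b, u⟩
    cases b <;> rfl
  · intro C _ g z
    rfl

end Pool.Agent.Helper7.OIP
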